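import Mathlib
import Pool.Agent.H55.FU.Stm

set_option autoImplicit false

/-!
# Statements of the modules (project FV of helper55, problem MP_b56c98_ag)

The same construction as in `Pool/Agent/H55/FU`, with weaker conditions on the degrees: the constant
`κ a` is allowed to depend on the multiplicities of the trace, and the room for simple points is only
needed where it is used.

THEOREM B'. For every `m ≥ 1` there is `n₀` such that for ALL `n ≥ n₀` and all numbers of general points of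
`ℙⁿ` with multiplicities at most `m` the Hilbert function is the expected one in all degrees
`d ≥ 4 m - 3`.
THEOREM T. Multiplicities at most `3`: explicit bounds for all `n ≥ 4`.
-/

namespace Pool.Agent.H55.FV

open Pool.Agent.W608.PR Pool.Agent.H55.FU

/-- The room for simple points is preserved from degree `f + 1` to degree `f`. -/
def Rm (E m κ f : ℕ) : Prop := (m - 1) * Nn E (f + 1) + (m + E) * κ ≤ (m + E) * Nn E f

/-- The conditions on `κ` and `L`. -/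
def Rooms (E m : ℕ) (κ : ℕ → ℕ) (L : ℕ) : Prop :=
  (∀ a f, 1 ≤ a → a < m → L + 1 + a ≤ f + m → Rm E (a + 1) (κ a) f) ∧
    (∀ f, L + 1 ≤ f → Rm E m (κ m) f) ∧ m ≤ L

/-- Traces for all multiplicities at most `m`. -/
def TPs (K : Type) [Field K] (E m : ℕ) (κ : ℕ → ℕ) : Prop :=
  ∀ a, 1 ≤ a → a ≤ m → TPk K E a (κ a)

/-- (TL) All the points which are not simple are on the hyperplane and regular from now on. -/
def S_TLv : Prop :=
  ∀ (K : Type) [Field K] [Infinite K] (E m : ℕ) (κ : ℕ → ℕ) (L : ℕ), TPs K E m κ →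
    Rooms E m κ L → ∀ (ι : Type) [Fintype ι] [DecidableEq ι] (a e : ℕ) (A : ι → Finset ℕ)
      (B : Finset ι), a ≤ m →
      (∀ i ∈ B, A i = {1}) → (∀ i, i ∉ B → A i ⊆ Finset.Icc 1 a) →
      (1 ≤ a → ∑ i ∈ Bᶜ, sz E (mx (A i)) + κ a ≤ Nn E e) → L + 1 + a ≤ e + m →
      dm E e ≤ ∑ i, cn E (A i) →
      CE E K (fun i => i ∈ Bᶜ) (fun i => prof (A i)) e

/-- (E1) -/
def S_E1v : Prop :=
  ∀ (K : Type) [Field K] [Infinite K] (E m : ℕ) (κ : ℕ → ℕ) (L : ℕ), TPs K E m κ →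
    Rooms E m κ L → 1 ≤ m →
    ∀ (ι : Type) [Fintype ι] [DecidableEq ι] (e : ℕ) (S : Finset ι) (A : ι → Finset ℕ)
      (B : Finset ι), (∀ i, A i ⊆ Finset.Icc 1 m) →
      (∀ i, i ∉ S → A i = Finset.Icc 1 (mx (A i))) →
      (∀ i ∈ B, i ∉ S ∧ A i = {1}) → (L + 1 ≤ e → ∑ i ∈ S, sz E (mx (A i)) + κ m ≤ Nn E e) →
      dm E e ≤ ∑ i, cn E (A i) → Qg E m (κ m) L e ≤ B.card →
      CE E K (fun i => i ∈ S) (fun i => prof (A i)) e

/-- (Mk) -/
def S_Mkv : Prop :=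
  ∀ (K : Type) [Field K] [Infinite K] (E m : ℕ) (κ : ℕ → ℕ) (c c' L : ℕ), TPs K E m κ →
    TNk K E m c → CNk K E m c' → Rooms E m κ L → 1 ≤ m →
    ∀ (ι : Type) [Fintype ι] [DecidableEq ι] (k e : ℕ) (S : Finset ι) (A : ι → Finset ℕ)
      (B : Finset ι), 1 ≤ k → k ≤ m →
      (∀ e', e' < e → e < e' + k → Cndg E m (κ m) c c' L e') → L + k ≤ e →
      (∀ i, A i ⊆ Finset.Icc 1 m) →
      (∀ i, i ∉ S → A i = Finset.Icc 1 (mx (A i))) →
      (∀ i ∈ B, i ∈ S ∧ A i = Finset.Icc 1 k) → Qg E m (κ m) L e ≤ B.card →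
      ∑ i ∈ S, sz E (mx (A i)) + κ m + Xg E m c c' L e ≤ Nn E e →
      dm E e ≤ ∑ i, cn E (A i) →
      CE E K (fun i => i ∈ S) (fun i => prof (A i)) e

/-- The numerical conditions for the degree `d`. -/
def Goodv (E m κ c c' L d : ℕ) : Prop :=
  L + m ≤ d ∧ (∀ e, e < d → d < e + m → Cndg E m κ c c' L e) ∧
    m * (Sz E m * Qg E m κ L d) < dm E d ∧
    Qg E m κ L d * sz E m + κ + Xg E m c c' L d ≤ Nn E d

/-- (Gg) -/
def S_Ggv : Prop :=
  ∀ (E m : ℕ) (κ : ℕ → ℕ) (c c' L D : ℕ), TPs ℂ E m κ → TNk ℂ E m c → CNk ℂ E m c' →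
    Rooms E m κ L → 1 ≤ m → (∀ d, D ≤ d → Goodv E m (κ m) c c' L d) →
    G ℂ (E + 1) m D

/-- (numB') As `Pool/Agent/H1/FU/NumB.lean` (tools `Bd`), with `L = 3 m - 2`: all the orders of magnitude
are one less than those available. -/
def S_numBv : Prop :=
  ∀ m : ℕ, 2 ≤ m → ∃ E0 : ℕ, 1 ≤ E0 ∧ ∀ E, E0 ≤ E → Rooms E m (fun a => kA E a) (3 * m - 3) ∧
    ∀ d, 4 * m - 3 ≤ d → Goodv E m (kA E m) (cA E m) (cB E m) (3 * m - 3) d

end Pool.Agent.H55.FV
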