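import Mathlib
import Pool.Agent.H55.FU.Fin
import Pool.Agent.H55.FV.Stm

set_option autoImplicit false

/-!
# Sharper constants
-/

namespace Pool.Agent.H55.FV

open Pool.Agent.W608.PR Pool.Agent.H55.FU

/-- The constant of the underdetermined side. -/
def kS (E m : ℕ) : ℕ := (aa E m - 1) * sz E (m - 1) + (aa E m - 1) * (aa E m - 2) / 2

/-- The constant of the overdetermined side. -/
def cS (E m : ℕ) : ℕ := (aa E m - 1) * (sz E m - m)

/-- The constant of the overdetermined side in the next dimension. -/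
def cT (E m : ℕ) : ℕ := (aa (E + 1) m - 1) * (Sz E m - m)

theorem sz_pred (E m : ℕ) (hm : 1 ≤ m) : sz E m = sz E (m - 1) + aa E m := by
  obtain ⟨k, rfl⟩ : ∃ k, m = k + 1 := ⟨m - 1, by omega⟩
  unfold aa sz
  rw [Nat.add_sub_cancel, show k + 1 + E = k + E + 1 by ring, Nat.choose_succ_succ, add_comm]

theorem half (x : ℕ) : 2 * ((x - 1) * (x - 2) / 2) = (x - 1) * (x - 2) := by
  refine Nat.mul_div_cancel' ?_
  rcases Nat.lt_or_ge x 2 with h | h
  · have h1 : x - 1 = 0 := by omega
    rw [h1, zero_mul]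
    exact dvd_zero 2
  · obtain ⟨y, rfl⟩ : ∃ y, x = y + 2 := ⟨x - 2, by omega⟩
    rw [Nat.add_sub_cancel, show y + 2 - 1 = y + 1 by omega, mul_comm]
    exact (Nat.even_mul_succ_self y).two_dvd

theorem hvpS (E m e : ℕ) (s t : Multiset ℕ) (hE : 1 ≤ E) (hm : 1 ≤ m) (hs : ∀ v ∈ s, v ≤ m)
    (ht : ∀ v ∈ t, v ≤ 1) (h1 : (s.map (sz E)).sum + kS E m ≤ Nn E e)
    (h2 : Nn E e ≤ (s.map (sz E)).sum + (t.map (sz E)).sum) :
    K4H38FP.hv ℂ (Fin (E + 1 + 1)) e (s + t) = 0 := by
  have S := K4H38FP.sys (n := E + 1) (by omega) e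
  rw [FE.sum_sz_simple E t ht] at h2
  have h5 := FE.hv_add_le (n := E + 1) (by omega) e s t ht
  have ha := aa_pos E m
  have hch : Nn E e = (E + 1 + e).choose (E + 1) := FE.Nn_eq_ch E e
  have h7 : K4H38FP.hv ℂ (Fin (E + 1 + 1)) e s + (s.map (K4H38FP.nc (E + 1))).sum =
      (E + 1 + e).choose (E + 1) := by
    by_cases hme : m ≤ e + 1
    · have h6 := S.lower (M := m) hme hm s hs
      rw [map_szm] at h1
      rw [hch] at h1
      apply h6
      have h9 := half (aa E m)
      have h10 := sz_pred E m hm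
      unfold kS at h1
      rw [← aa_eq_ak, ← FE.sz_eq_nc, h10]
      generalize sz E (m - 1) = N at h1
      generalize (s.map (K4H38FP.nc (E + 1))).sum = q at h1
      generalize (E + 1 + e).choose (E + 1) = D at h1
      generalize (aa E m - 1) * (aa E m - 2) / 2 = z at h1 h9
      generalize aa E m = a at h1 h9 ha
      obtain ⟨b, rfl⟩ : ∃ b, a = b + 1 := ⟨a - 1, by omega⟩
      rw [Nat.add_sub_cancel] at h1 h9
      have h8 : (q : ℤ) + (b * N + z) ≤ D := by exact_mod_cast h1
      have h11 : 2 * (z : ℤ) + b = b * b := by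
        rcases Nat.eq_zero_or_pos b with hb | hb
        · subst hb
          rw [Nat.zero_mul] at h9
          have : z = 0 := by omega
          rw [this]
          norm_num
        · obtain ⟨b', rfl⟩ : ∃ b', b = b' + 1 := ⟨b - 1, by omega⟩
          rw [show b' + 1 + 1 - 2 = b' by omega] at h9
          have h12 : 2 * (z : ℤ) = (b' + 1) * b' := by exact_mod_cast h9
          push_cast
          linarith
      push_cast
      nlinarith
    · -- no points at all
      have h3 : Nn E e ≤ kS E m := by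
        have h4 : Nn E e = sz E (e + 1) := by
          unfold Nn sz
          congr 1
          omega
        have h6 : sz E (e + 1) ≤ sz E (m - 1) := sz_mono E (by omega)
        have h8 : 2 ≤ aa E m := by
          unfold aa
          have h10 : (1 + E).choose E ≤ (m - 1 + E).choose E := Nat.choose_le_choose _ (by omega)
          have h11 : (1 + E).choose E = E + 1 := by
            rw [add_comm, Nat.choose_succ_self_right]
          omega
        have h9 : sz E (m - 1) ≤ (aa E m - 1) * sz E (m - 1) :=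
          Nat.le_mul_of_pos_left _ (by omega)
        unfold kS
        omega
      have h4 : (s.map (sz E)).sum = 0 := by omega
      have h6 : ∀ v ∈ s, v ≤ 1 := by
        intro v hv
        have h8 : sz E v = 0 := by
          rw [Multiset.sum_eq_zero_iff] at h4
          exact h4 _ (Multiset.mem_map_of_mem _ hv)
        by_contra hcon
        have h9 := sz_pos E (show 1 ≤ v by omega)
        omega
      have h8 := S.lower (M := 1) (by omega) le_rfl s h6
      apply h8
      rw [← map_szm, h4]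
      have h9 := S.amono (Nat.zero_le 0)
      have h10 : K4H38FP.ak (Fin (E + 1 + 1)) (1 - 1) = 1 := by
        rw [← aa_eq_ak]
        unfold aa
        simp
      rw [h10]
      push_cast
      have h11 : (0 : ℤ) ≤ ((E + 1 + e).choose (E + 1) : ℕ) := Int.natCast_nonneg _
      linarith
  rw [← map_szm, ← hch] at h7
  omega

theorem hvnS (E m e : ℕ) (s : Multiset ℕ) (hE : 1 ≤ E) (hs : ∀ v ∈ s, v ≤ m)
    (h1 : Nn E e + cS E m ≤ (s.map (sz E)).sum) :
    K4H38FP.hv ℂ (Fin (E + 1 + 1)) e s = 0 := by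
  have S := K4H38FP.sys (n := E + 1) (by omega) e
  obtain ⟨l, rfl, hl⟩ := FE.exists_sorted s
  have hN : 1 ≤ Nn E e := Nat.choose_pos (by omega)
  rcases l with _ | ⟨v, l⟩
  · exfalso
    rw [Multiset.coe_nil, Multiset.map_zero, Multiset.sum_zero] at h1
    omega
  rw [List.pairwise_cons] at hl
  rcases Nat.eq_zero_or_pos v with hv | hv
  · exfalso
    subst hv
    have h2 : (((0 :: l : List ℕ) : Multiset ℕ).map (sz E)).sum = 0 := by
      rw [Multiset.sum_eq_zero_iff]
      intro x hx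
      obtain ⟨y, hy, rfl⟩ := Multiset.mem_map.1 hx
      have h3 : y = 0 := by
        rcases List.mem_cons.1 (Multiset.mem_coe.1 hy) with h | h
        · exact h
        · exact Nat.le_zero.1 (hl.1 y h)
      rw [h3, sz_zero]
    omega
  obtain ⟨k, rfl⟩ : ∃ k, v = k + 1 := ⟨v - 1, by omega⟩
  rcases Nat.lt_or_ge e (k + 1) with he | he
  · exact K4H38FP.hv_top he (l : Multiset ℕ)
  by_contra h0
  have h2 := S.upper (k := k) (by omega) (s := (l : Multiset ℕ)) (fun x hx =>
    hl.1 x (Multiset.mem_coe.1 hx)) (Nat.pos_of_ne_zero h0)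
  have h3 : k + 1 ≤ m := hs (k + 1) (by simp)
  have h4 : K4H38FP.ak (Fin (E + 1 + 1)) k ≤ aa E m := by
    rw [aa_eq_ak]
    exact S.amono (by omega)
  have h5 : K4H38FP.nc (E + 1) (k + 1) - (k + 1) ≤ sz E m - m := by
    rw [FE.sz_eq_nc]
    have h6 := S.N_sub h3
    omega
  have h6 : (K4H38FP.ak (Fin (E + 1 + 1)) k - 1) * (K4H38FP.nc (E + 1) (k + 1) - (k + 1)) ≤
      (aa E m - 1) * (sz E m - m) := Nat.mul_le_mul (by omega) h5
  rw [map_szm, FE.Nn_eq_ch] at h1
  unfold cS at h1
  have h7 : 0 < K4H38FP.hv ℂ (Fin (E + 1 + 1)) e ((k + 1) ::ₘ (l : Multiset ℕ)) :=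
    Nat.pos_of_ne_zero h0
  have h8 : (((k + 1) ::ₘ (l : Multiset ℕ)).map (K4H38FP.nc (E + 1))).sum =
    ((((k + 1) :: l : List ℕ) : Multiset ℕ).map (K4H38FP.nc (E + 1))).sum := rfl
  omega

theorem tPS {E m : ℕ} (hE : 1 ≤ E) (hm : 1 ≤ m) : TPk ℂ E m (kS E m) :=
  tPg E m _ hE fun e s t hs ht h1 h2 => hvpS E m e s t hE hm hs ht h1 h2

theorem tNS {E m : ℕ} (hE : 1 ≤ E) : TNk ℂ E m (cS E m) :=
  tNg E m _ hE fun e s hs h => hvnS E m e s hE hs h

theorem Sz_eq_szs (E v : ℕ) : Sz E v = sz (E + 1) v := by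
  unfold Sz sz
  rfl

theorem cNS {E m : ℕ} (hE : 1 ≤ E) : CNk ℂ E m (cT E m) :=
  cNg E m _ hE fun e s hs h => hvnS (E + 1) m e s (by omega) hs (by
    unfold cS
    unfold cT at h
    rw [Sz_eq_szs] at h
    exact h)

/-- The constants of the first version. -/
theorem tPK {E m : ℕ} (hE : 1 ≤ E) : TPk ℂ E m (FE.Kc E m) := by
  have h := FE.tP FE.hvp E m hE
  exact h

end Pool.Agent.H55.FV
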