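import Mathlib
import Pool.Agent.H55.FV.Cst

set_option autoImplicit false

/-!
# Triple points: the numerical statements
-/

namespace Pool.Agent.H55.FV

open Pool.Agent.W608.PR Pool.Agent.H55.FU

/-- The base inequalities for multiplicities at most `3` (`D` the first degree, `L` as in `Rooms`). -/
def Base3 (E k3 k2 k1 c c' L D : ℕ) : Prop :=
  3 ≤ L ∧ L + 3 ≤ D ∧
  L * ((E + 2) * k1) ≤ (E + 1) * ((L - 1) * Nn E (L - 1)) ∧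
  (L + 1) * ((E + 3) * k2) ≤ (E + 1) * ((L - 1) * Nn E L) ∧
  (L + 2) * ((E + 3) * k3) ≤ (E + 1) * (L * Nn E (L + 1)) ∧
  (D - 1) * ((E + 3) * (Rg E 3 k3 * sz E 3 + k3 + Xg E 3 c c' L (D - 1))) ≤
    (E + 1) * ((D - 3) * Nn E (D - 2)) ∧
  (E + 4) * (Rg E 3 k3 * sz E 3) ≤ (D - 3) * Nn E (D - 1) ∧
  3 * (Sz E 3 * Qg E 3 k3 L D) < dm E D ∧
  Qg E 3 k3 L D * sz E 3 + k3 + Xg E 3 c c' L D ≤ Nn E D

/-- (base3) PROOF. From `Nn_ratio`: `(f + 1) * ((m + E) * Nn E f - (m - 1) * Nn E (f + 1)) =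
(E + 1) * (f + 2 - m) * Nn E f`, so `Rm E m κ f` is equivalent to
`(f + 1) * ((m + E) * κ) ≤ (E + 1) * ((f + 2 - m) * Nn E f)`, and this passes from `f` to `f + 1`
(`Nn_mono`, `(f + 2) * (f + 2 - m) ≤ (f + 1) * (f + 3 - m)`). In the same way the first part of `Cndg`
(at `e`) is `(e + 1) * ((m + E) * (R + κ + X (e + 1))) ≤ (E + 1) * ((e + 2 - m) * Nn E e)`, from `e` to
`e + 1`: `X` grows by `Yg` only, i.e. `(e + 1) * (.. X (e + 2)) ≤ (e + 2) * (.. X (e + 1))`, and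
`(e + 1) * Nn E (e + 1) = (e + E + 2) * Nn E e ≥ (e + 2) * Nn E e`; similarly for the last two. -/
def S_base3 : Prop :=
  ∀ (E : ℕ) (κ : ℕ → ℕ) (c c' L D : ℕ), 1 ≤ E → Base3 E (κ 3) (κ 2) (κ 1) c c' L D →
    Rooms E 3 κ L ∧ ∀ d, D ≤ d → Goodv E 3 (κ 3) c c' L d

/-- (row1) finitely many dimensions -/
def S_row1 : Prop :=
  ∀ p ∈ [(2, 4, 44), (3, 4, 27), (4, 4, 21), (5, 4, 18), (6, 4, 17), (7, 4, 16), (8, 4, 15),
    (9, 4, 15), (10, 5, 15), (11, 5, 15)], Base3 p.1 (FE.Kc p.1 3) (FE.Kc p.1 2) (FE.Kc p.1 1)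
      (cS p.1 3) (cT p.1 3) p.2.1 p.2.2

/-- (row2) finitely many dimensions -/
def S_row2 : Prop :=
  ∀ p ∈ [(12, 5, 14), (13, 5, 14), (14, 4, 13), (15, 4, 13), (16, 4, 13)],
    Base3 p.1 (kS p.1 3) (kS p.1 2) (kS p.1 1) (cS p.1 3) (cT p.1 3) p.2.1 p.2.2

/-- (row3) -/
def S_row3 : Prop :=
  ∀ E : ℕ, 17 ≤ E → Base3 E (kS E 3) (kS E 2) (kS E 1) (cS E 3) (cT E 3) 4 12

/-- (row4) -/
def S_row4 : Prop :=
  ∀ E : ℕ, 24 ≤ E → Base3 E (kS E 3) (kS E 2) (kS E 1) (cS E 3) (cT E 3) 4 11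

/-- (row5) -/
def S_row5 : Prop :=
  ∀ E : ℕ, 44 ≤ E → Base3 E (kS E 3) (kS E 2) (kS E 1) (cS E 3) (cT E 3) 4 10

/-- (row6) -/
def S_row6 : Prop :=
  ∀ E : ℕ, 402 ≤ E → Base3 E (kS E 3) (kS E 2) (kS E 1) (cS E 3) (cT E 3) 4 9

end Pool.Agent.H55.FV
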