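import Mathlib
import Pool.Agent.H55.FU.E2
import Pool.Agent.H55.FU.Mk
import Pool.Agent.H55.FV.E1

set_option autoImplicit false

/-!
# Many points of multiplicity `k` on the hyperplane (module Mk)
-/

namespace Pool.Agent.H55.FV

open Pool.Agent.W608.PR Pool.Agent.H55.FU

theorem mkv : S_Mkv := by
  classical
  intro K _ _ E m κ c c' L hP hN hCN hR hm ι _ _ k
  induction k with
  | zero =>
    intro e S A B hk
    omega
  | succ k ih =>
    intro e S A B _ hkm hC hLk hA hin hB hq hT htot
    have hmL := hR.2.2
    obtain ⟨e, rfl⟩ : ∃ e', e = e' + 1 := ⟨e - 1, by omega⟩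
    obtain ⟨T, hTd⟩ : ∃ T, T = ∑ i ∈ S, sz E (mx (A i)) := ⟨_, rfl⟩
    rw [← hTd] at hT
    have hXmono := Xg_le_succ E m c c' L e
    have hQmono := Qg_le_succ E m (κ m) L e
    rcases Nat.eq_zero_or_pos k with hk0 | hk0
    · -- simple points on the hyperplane
      subst hk0
      have hB1 : ∀ i ∈ B, i ∈ S ∧ A i = {1} := by
        intro i hi
        refine ⟨(hB i hi).1, ?_⟩
        rw [(hB i hi).2, zero_add, Finset.Icc_self]
      refine CE.exactA (B := B) hB1 ?_ ?_
      · have h1 := e1v K E m κ L hP hR hm ι (e + 1) (S \ B) A B hA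
          (fun i hi => ?_)
          (fun i hi => ⟨fun h => (Finset.mem_sdiff.1 h).2 hi, (hB1 i hi).2⟩) (fun _ => ?_) htot hq
        · exact h1.mono (fun i hi => Finset.mem_sdiff.2 hi) fun i s => le_rfl
        · by_cases hiB : i ∈ B
          · rw [(hB1 i hiB).2, mx_one, Finset.Icc_self]
          · exact hin i fun h => hi (Finset.mem_sdiff.2 ⟨h, hiB⟩)
        · have h2 : ∑ i ∈ S \ B, sz E (mx (A i)) ≤ T := by
            rw [hTd]
            exact Finset.sum_le_sum_of_subset Finset.sdiff_subset
          omega
      · refine e2g K E m c c' L hN hCN hm hmL ι e S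
          (fun i => if i ∈ S then (A i).erase (mx (A i)) else A i)
          (fun i => ?_) (fun i hi => ?_) ?_ ?_
        · show (if i ∈ S then (A i).erase (mx (A i)) else A i) ⊆ Finset.Icc 1 m
          split_ifs
          · exact (Finset.erase_subset _ _).trans (hA i)
          · exact hA i
        · rw [if_neg hi]
          exact hin i hi
        · have h4 : (m + E) * ∑ i ∈ S, sz E (mx (if i ∈ S then (A i).erase (mx (A i)) else A i)) ≤
              (m - 1) * T := by
            rw [hTd, Finset.mul_sum, Finset.mul_sum]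
            refine Finset.sum_le_sum fun i hi => ?_
            rw [if_pos hi]
            exact T_reg (hA i)
          have h5 : (m - 1) * T ≤ (m - 1) * Nn E (e + 1) := Nat.mul_le_mul_left _ (by omega)
          have h6 := Nn_growth (E := E) (m := m) (e := e) (by omega)
          exact le_trans (le_of_mul_le_mul_left (h4.trans (h5.trans h6)) (by omega))
            (Nat.le_add_right _ _)
        · have h1 : ∑ i, cn E (if i ∈ S then (A i).erase (mx (A i)) else A i) + T =
              ∑ i, cn E (A i) := by
            rw [hTd, ← Finset.sum_add_sum_compl S (fun i => cn E (A i)),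
              ← Finset.sum_add_sum_compl S, add_right_comm, ← Finset.sum_add_distrib]
            congr 1
            · refine Finset.sum_congr rfl fun i hi => ?_
              rw [if_pos hi]
              exact cn_erase _ (mx_mem_or _)
            · refine Finset.sum_congr rfl fun i hi => ?_
              rw [if_neg (Finset.mem_compl.1 hi)]
          have h2 := dm_succ E e
          omega
    · -- a step
      obtain ⟨hC1, hC2, hC3⟩ := hC e (by omega) (by omega)
      obtain ⟨J, hJ⟩ : ∃ J : Finset ι, J = Sᶜ.filter (fun i => (A i).Nonempty) := ⟨_, rfl⟩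
      have hJm : ∀ i, i ∈ J ↔ i ∉ S ∧ (A i).Nonempty := by
        intro i
        rw [hJ, Finset.mem_filter, Finset.mem_compl]
      have hszpos : 0 < sz E m := sz_pos E hm
      have hSJ : Nn E (e + 1) + Rg E m (κ m) * sz E m ≤ T + ∑ i ∈ J, sz E (mx (A i)) := by
        have h1 : (E + 2) * ∑ i ∈ S, cn E (A i) ≤ (m + E + 1) * T := by
          rw [hTd, Finset.mul_sum, Finset.mul_sum]
          exact Finset.sum_le_sum fun i _ => cn_ratio (hA i) (mx_le (hA i))
        have h2 : (E + 2) * ∑ i ∈ Sᶜ, cn E (A i) ≤ (m + E + 1) * ∑ i ∈ J, sz E (mx (A i)) := by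
          rw [hJ, Finset.mul_sum, Finset.mul_sum, Finset.sum_filter]
          refine Finset.sum_le_sum fun i _ => ?_
          split_ifs with h
          · exact cn_ratio (hA i) (mx_le (hA i))
          · rw [Finset.not_nonempty_iff_eq_empty] at h
            rw [h, cn_empty, mul_zero]
        have h3 := Finset.sum_add_sum_compl S fun i => cn E (A i)
        have h4 : (E + 2) * dm E (e + 1) ≤ (E + 2) * ∑ i, cn E (A i) := Nat.mul_le_mul_left _ htot
        rw [dm_up, ← h3, Nat.mul_add] at h4
        have h5 : (m + E + 1) * (Nn E (e + 1) + Rg E m (κ m) * sz E m) ≤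
            (m + E + 1) * (T + ∑ i ∈ J, sz E (mx (A i))) := by
          have h6 : (e + 1 + E + 2) * Nn E (e + 1) =
              (e + 2) * Nn E (e + 1) + (E + 1) * Nn E (e + 1) := by ring
          have h7 : (m + E + 1) * (Nn E (e + 1) + Rg E m (κ m) * sz E m) =
              (m + E + 1) * (Rg E m (κ m) * sz E m) + m * Nn E (e + 1) + (E + 1) * Nn E (e + 1) := by
            ring
          rw [h7, Nat.mul_add]
          omega
        exact le_of_mul_le_mul_left h5 (by omega)
      have hszJ : ∀ i, sz E (mx (A i)) ≤ sz E m := fun i => sz_mono E (mx_le (hA i))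
      have hJc : Rg E m (κ m) ≤ J.card := by
        have h1 : ∑ i ∈ J, sz E (mx (A i)) ≤ J.card * sz E m := by
          rw [← smul_eq_mul, ← Finset.sum_const]
          exact Finset.sum_le_sum fun i _ => hszJ i
        have h2 : Rg E m (κ m) * sz E m ≤ J.card * sz E m := by omega
        exact le_of_mul_le_mul_right h2 hszpos
      obtain ⟨J2, hJ2, hJ2c⟩ := Finset.exists_subset_card_eq hJc
      have hJd : Nn E (e + 1) - κ m - T ≤ ∑ i ∈ J \ J2, sz E (mx (A i)) := by
        have h1 := Finset.sum_sdiff (f := fun i => sz E (mx (A i))) hJ2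
        have h2 : ∑ i ∈ J2, sz E (mx (A i)) ≤ Rg E m (κ m) * sz E m := by
          calc ∑ i ∈ J2, sz E (mx (A i)) ≤ ∑ _i ∈ J2, sz E m :=
                Finset.sum_le_sum fun i _ => hszJ i
            _ = Rg E m (κ m) * sz E m := by rw [Finset.sum_const, smul_eq_mul, hJ2c]
        omega
      obtain ⟨J1, hJ1, hJ1a, hJ1b⟩ := greedy (fun i => sz E (mx (A i))) (sz E m) (J \ J2)
        (fun i _ => hszJ i) (Nn E (e + 1) - κ m - T) hJd
      have hRc : Rg E m (κ m) = κ m + sz E m := rfl
      obtain ⟨J3, hJ3, hJ3c⟩ := Finset.exists_subset_card_eq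
        (show Nn E (e + 1) - T - ∑ i ∈ J1, sz E (mx (A i)) ≤ J2.card by omega)
      obtain ⟨u, hu⟩ : ∃ u : ι → ℕ, ∀ i, u i = if i ∈ S ∪ J1 then mx (A i) else
        (if i ∈ J3 then 1 else 0) := ⟨_, fun _ => rfl⟩
      have hJ1S : Disjoint S J1 := by
        rw [Finset.disjoint_left]
        intro i hi hi'
        exact ((hJm i).1 (Finset.mem_sdiff.1 (hJ1 hi')).1).1 hi
      have hJ3n : ∀ i ∈ J3, i ∉ S ∪ J1 := by
        intro i hi h
        rcases Finset.mem_union.1 h with h | h
        · exact ((hJm i).1 (hJ2 (hJ3 hi))).1 h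
        · exact (Finset.mem_sdiff.1 (hJ1 h)).2 (hJ3 hi)
      have huF : ∀ i ∈ S ∪ J1, u i = mx (A i) := fun i hi => by rw [hu, if_pos hi]
      have huS : ∀ i ∈ S, u i = mx (A i) := fun i hi => huF i (Finset.mem_union_left _ hi)
      have huJ : ∀ i ∈ J1, u i = mx (A i) := fun i hi => huF i (Finset.mem_union_right _ hi)
      have hu3 : ∀ i ∈ J3, u i = 1 := fun i hi => by
        rw [hu, if_neg (hJ3n i hi), if_pos hi]
      have hu0 : ∀ i, i ∉ S → i ∉ J1 → i ∉ J3 → u i = 0 := fun i h1 h2 h3 => by
        rw [hu, if_neg (by rw [Finset.mem_union, not_or]; exact ⟨h1, h2⟩), if_neg h3]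
      have hmxpos : ∀ i ∈ J, 1 ≤ mx (A i) := by
        intro i hi
        exact (Finset.mem_Icc.1 (hA i (mx_mem ((hJm i).1 hi).2))).1
      have hFsum : ∑ i ∈ S ∪ J1, sz E (u i) = T + ∑ i ∈ J1, sz E (mx (A i)) := by
        rw [Finset.sum_congr rfl fun i hi => by rw [huF i hi], Finset.sum_union hJ1S, ← hTd]
      have hsum : ∑ i, sz E (u i) = Nn E (e + 1) := by
        have h1 : ∀ i ∈ Finset.univ, sz E (u i) =
            (if i ∈ S ∪ J1 then sz E (mx (A i)) else 0) + (if i ∈ J3 then 1 else 0) := by
          intro i _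
          by_cases h : i ∈ S ∪ J1
          · have h2 : i ∉ J3 := fun h3 => hJ3n i h3 h
            rw [hu, if_pos h, if_pos h, if_neg h2, add_zero]
          · rw [hu, if_neg h, if_neg h, zero_add]
            split_ifs
            · exact sz_one E
            · exact sz_zero E
        rw [Finset.sum_congr rfl h1, Finset.sum_add_distrib, Finset.sum_ite_mem,
          Finset.sum_ite_mem, Finset.univ_inter, Finset.univ_inter, Finset.sum_union hJ1S,
          Finset.sum_const, smul_eq_mul, mul_one, hJ3c, ← hTd]
        omega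
      have hmem : ∀ i, u i ∈ A i ∨ u i = 0 := by
        intro i
        by_cases h1 : i ∈ S
        · rw [huS i h1]
          exact mx_mem_or _
        by_cases h2 : i ∈ J1
        · rw [huJ i h2]
          exact mx_mem_or _
        by_cases h3 : i ∈ J3
        · left
          have h4 := (hJm i).1 (hJ2 (hJ3 h3))
          rw [hu3 i h3, hin i h4.1, Finset.mem_Icc]
          exact ⟨le_rfl, hmxpos i (hJ2 (hJ3 h3))⟩
        · exact Or.inr (hu0 i h1 h2 h3)
      have hum : ∀ i, i ∉ S → u i ≤ mx (A i) := by
        intro i hi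
        by_cases h2 : i ∈ J1
        · exact (huJ i h2).le
        by_cases h3 : i ∈ J3
        · rw [hu3 i h3]
          exact hmxpos i (hJ2 (hJ3 h3))
        · rw [hu0 i hi h2 h3]
          exact Nat.zero_le _
      have hum' : ∀ i, u i ≤ m := by
        intro i
        by_cases h : i ∈ S
        · rw [huS i h]
          exact mx_le (hA i)
        · exact (hum i h).trans (mx_le (hA i))
      have hTr : TE E K u (e + 1) := by
        refine hP m hm le_rfl ι u (S ∪ J1) (e + 1) hum' (fun i hi => ?_) ?_ (le_of_eq hsum.symm)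
        · rw [hu, if_neg hi]
          split_ifs <;> omega
        · rw [hFsum]
          omega
      refine Pool.Agent.H55.FE.stepT (u := u) hA hin huS hum hTr ?_
      have hTn := T_next (E := E) (S := S) (u := u) hA huS J3 (fun i hi hne h3 => by
        by_cases h2 : i ∈ J1
        · exact huJ i h2
        · exact absurd (hu0 i hi h2 h3) hne)
      rw [hsum] at hTn
      have hTm : ∑ i ∈ S ∪ Finset.univ.filter (fun i => u i ≠ 0),
          sz E (mx ((A i).erase (u i))) + κ m + Xg E m c c' L (e + 1) ≤ Nn E e := by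
        have h1 : J3.card * sz E m ≤ Rg E m (κ m) * sz E m :=
          Nat.mul_le_mul_right _ ((Finset.card_le_card hJ3).trans (le_of_eq hJ2c))
        have h2 : (m + E) * (J3.card * sz E m) ≤ (m + E) * (Rg E m (κ m) * sz E m) :=
          Nat.mul_le_mul_left _ h1
        refine le_of_mul_le_mul_left (?_ : (m + E) * _ ≤ (m + E) * _) (by omega)
        rw [Nat.mul_add, Nat.mul_add] at hC1 ⊢
        omega
      refine ih e _ (fun i => (A i).erase (u i)) B hk0 (by omega)
        (fun e' h1 h2 => hC e' (by omega) (by omega)) (by omega)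
        (fun i => (Finset.erase_subset _ _).trans (hA i)) (fun i hi => ?_) (fun i hi => ?_) ?_
        ?_ ?_
      · rw [Finset.mem_union, not_or, Finset.mem_filter, not_and, not_not] at hi
        have h0 := hi.2 (Finset.mem_univ _)
        show (A i).erase (u i) = Finset.Icc 1 (mx ((A i).erase (u i)))
        rw [h0, erase_zero (hA i)]
        exact hin i hi.1
      · refine ⟨Finset.mem_union_left _ (hB i hi).1, ?_⟩
        show (A i).erase (u i) = Finset.Icc 1 k
        rw [huS i (hB i hi).1, (hB i hi).2, mx_Icc]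
        ext v
        rw [Finset.mem_erase, Finset.mem_Icc, Finset.mem_Icc]
        omega
      · omega
      · show ∑ i ∈ S ∪ Finset.univ.filter (fun i => u i ≠ 0),
          sz E (mx ((A i).erase (u i))) + κ m + Xg E m c c' L e ≤ Nn E e
        omega
      · have h1 := tot_next (E := E) hmem
        have h2 := dm_succ E e
        show dm E e ≤ ∑ i, cn E ((A i).erase (u i))
        omega

end Pool.Agent.H55.FV
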