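import Mathlib
import Pool.Agent.H55.FV.Mk

set_option autoImplicit false

/-!
# Module Gg
-/

namespace Pool.Agent.H55.FV

open Pool.Agent.W608.PR Pool.Agent.H55.FU

theorem ggv : S_Ggv := by
  classical
  intro E m κ c c' L D hP hN hCN hR hm hD n w hw d hd htot
  obtain ⟨hd1, hC, h4, h5⟩ := hD d hd
  have htot' : dm E d ≤ ∑ i, Sz E (w i) := htot
  obtain ⟨k, hk1, hk2, hk3⟩ := exists_freq (E := E) w hw _ _ h4 htot'
  obtain ⟨B, hB, hBc⟩ := Finset.exists_subset_card_eq hk3
  have hBk : ∀ i ∈ B, w i = k := fun i hi => (Finset.mem_filter.1 (hB hi)).2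
  refine full_of_CE ?_
  have h7 := mkv ℂ E m κ c c' L hP hN hCN hR hm (Fin n) k d B
    (fun i => Finset.Icc 1 (w i)) B hk1 hk2
    (fun e he he' => hC e he (by omega)) (by omega)
    (fun i => Finset.Icc_subset_Icc_right (hw i))
    (fun i _ => by rw [mx_Icc]) (fun i hi => ⟨hi, by rw [hBk i hi]⟩) (le_of_eq hBc.symm) ?_ ?_
  · exact h7.mono (fun i hi => hi.elim) fun i s => le_rfl
  · refine le_trans (Nat.add_le_add_right (Nat.add_le_add_right ?_ _) _) h5
    calc ∑ i ∈ B, sz E (mx (Finset.Icc 1 (w i))) ≤ ∑ _i ∈ B, sz E m := by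
          refine Finset.sum_le_sum fun i _ => sz_mono E ?_
          rw [mx_Icc]
          exact hw i
      _ = Qg E m (κ m) L d * sz E m := by rw [Finset.sum_const, smul_eq_mul, hBc]
  · refine htot'.trans (le_of_eq (Finset.sum_congr rfl fun i _ => ?_))
    rw [cn_Icc]

end Pool.Agent.H55.FV
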