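import Mathlib
import Pool.Agent.H55.FV.Gg
import Pool.Agent.H55.FV.Cst
import Pool.Agent.H1.FV.NumBv

set_option autoImplicit false

/-!
# The linear bound in large dimensions, second version
-/

namespace Pool.Agent.H55.FV

open Pool.Agent.W608.PR Pool.Agent.H55.FU

/-- The linear bound in large dimensions. -/
theorem GBv {m : ℕ} (hm : 2 ≤ m) : ∃ E0 : ℕ, ∀ E, E0 ≤ E → G ℂ E m (4 * m - 3) := by
  obtain ⟨E0, hE0, h⟩ := Pool.Agent.H1.FV.numBv m hm
  refine ⟨E0 + 1, fun E hE => ?_⟩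
  obtain ⟨E, rfl⟩ : ∃ E', E = E' + 1 := ⟨E - 1, by omega⟩
  obtain ⟨hR, hgood⟩ := h E (by omega)
  exact ggv E m (fun a => kA E a) (cA E m) (cB E m) (3 * m - 3) (4 * m - 3)
    (fun a ha _ => tP1 (by omega) ha) (tN1 (by omega) (by omega)) (cN1 (by omega) (by omega)) hR
    (by omega) hgood

end Pool.Agent.H55.FV
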